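import Pool.Agent.Helper94.PG.Herbst

/-!
# PG-B3: Herbst's bound for independent variables

`X i` independent with values in `[a, b]`, `Z` a function of the coordinates in the finite set `S`,
which increases when a coordinate is replaced by `b`, the sum of the squares of these increments
being at most `K`.  Then `E exp (-t Z) ≤ exp (-t E Z + t ^ 2 K / 2)`, `P (Z ≤ E Z - s) ≤
exp (-s ^ 2 / (2 K))` and `E |Z - E Z| ≤ 4 √K`.
-/

set_option autoImplicit false

namespace Pool.Agent.Helper94.PG

open MeasureTheory Real ProbabilityTheory Filter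

section

variable {Ω : Type*} [MeasurableSpace Ω] {P : Measure Ω} [IsProbabilityMeasure P]
  {I : Type*} [DecidableEq I]

/-- coordinates between `a` and `b` -/
def Box (a b : ℝ) (c : I → ℝ) : Prop := ∀ i, a ≤ c i ∧ c i ≤ b

/-- truncation -/
def clp (a b u : ℝ) : ℝ := max a (min b u)

omit [IsProbabilityMeasure P] in
theorem clp_mem {a b : ℝ} (hab : a ≤ b) (u : ℝ) : a ≤ clp a b u ∧ clp a b u ≤ b :=
  ⟨le_max_left _ _, max_le hab (min_le_left _ _)⟩

theorem clp_id {a b u : ℝ} (h : a ≤ u ∧ u ≤ b) : clp a b u = u := by
  rw [clp, min_eq_right h.2, max_eq_right h.1]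

theorem measurable_clp (a b : ℝ) : Measurable (clp a b) :=
  measurable_const.max (measurable_const.min measurable_id)

/-- all coordinates from those in `S` -/
noncomputable def xt (a b : ℝ) (S : Finset I) (y : Fin S.card → ℝ) : I → ℝ := fun i =>
  clp a b (if h : i ∈ S then y (S.equivFin ⟨i, h⟩) else a)

theorem measurable_xt (a b : ℝ) (S : Finset I) : Measurable (xt a b S) := by
  refine measurable_pi_lambda _ fun i => ?_
  unfold xt
  by_cases h : i ∈ S
  · simp only [h, dite_true]
    exact (measurable_clp a b).comp (measurable_pi_apply _)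
  · simp only [h, dite_false]
    exact measurable_const

theorem herbst {X : I → Ω → ℝ} (hX : ∀ i, Measurable (X i)) (hind : iIndepFun X P) {a b : ℝ}
    (hbd : ∀ i ω, a ≤ X i ω ∧ X i ω ≤ b) (S : Finset I) {Z : (I → ℝ) → ℝ} (hZm : Measurable Z)
    (hS : ∀ c c', Box a b c → Box a b c' → (∀ i ∈ S, c i = c' i) → Z c = Z c') {M K : ℝ}
    (hM : ∀ c, Box a b c → |Z c| ≤ M)
    (hmono : ∀ c, Box a b c → ∀ i ∈ S, Z c ≤ Z (Function.update c i b))
    (hK : ∀ c, Box a b c → ∑ i ∈ S, (Z (Function.update c i b) - Z c) ^ 2 ≤ K)
    {t : ℝ} (ht : 0 ≤ t) :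
    ∫ ω, exp (-(t * Z fun i => X i ω)) ∂P ≤
      exp (-(t * ∫ ω, Z (fun i => X i ω) ∂P) + t ^ 2 * K / 2) := by
  obtain ⟨ω₀⟩ := nonempty_of_isProbabilityMeasure P
  have hab : ∀ _ : I, a ≤ b := fun i => (hbd i ω₀).1.trans (hbd i ω₀).2
  set e : Fin S.card → I := fun j => (S.equivFin.symm j : I) with he
  have hinj : Function.Injective e := fun j j' h =>
    S.equivFin.symm.injective (Subtype.ext h)
  have heS : ∀ j, e j ∈ S := fun j => (S.equivFin.symm j).2
  have hexB : ∀ y, Box a b (xt a b S y) := fun y i => clp_mem (hab i) _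
  have hup : ∀ c : I → ℝ, Box a b c → ∀ i, Box a b (Function.update c i b) := by
    intro c hc i k
    by_cases hk : k = i
    · subst hk
      rw [Function.update_self]
      exact ⟨hab k, le_rfl⟩
    · rw [Function.update_of_ne hk]
      exact hc k
  set Y : Ω → Fin S.card → ℝ := fun ω j => X (e j) ω with hY
  have hYm : Measurable Y := measurable_pi_lambda _ fun j => hX (e j)
  have hlaw : P.map Y = Measure.pi fun j => P.map (X (e j)) :=
    (iIndepFun_iff_map_fun_eq_pi_map fun j => (hX (e j)).aemeasurable).1 (hind.precomp hinj)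
  have hpr : ∀ j, IsProbabilityMeasure (P.map (X (e j))) := fun j =>
    Measure.isProbabilityMeasure_map (hX (e j)).aemeasurable
  have hZY : ∀ ω, Z (xt a b S (Y ω)) = Z fun i => X i ω := by
    intro ω
    refine hS _ _ (hexB _) (fun i => hbd i ω) fun i hi => ?_
    simp only [xt, hi, dite_true, hY, he, Equiv.symm_apply_apply]
    exact clp_id (hbd i ω)
  have hxm := measurable_xt a b S
  have h := herbst_fin (fun j => P.map (X (e j))) (M := M) (K := K) (fun y => Z (xt a b S y))
    (fun j y => Z (Function.update (xt a b S y) (e j) b)) (hZm.comp hxm)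
    (fun j => hZm.comp (measurable_update_left.comp hxm)) (fun y => hM _ (hexB y))
    (fun j y => hM _ (hup _ (hexB y) _)) ?_ (fun j y => hmono _ (hexB y) _ (heS j)) ?_ ht
  · rw [← hlaw, integral_map hYm.aemeasurable, integral_map hYm.aemeasurable] at h
    · simpa only [hZY] using h
    · exact (hZm.comp hxm).aestronglyMeasurable
    · have : Measurable fun y => exp (-(t * Z (xt a b S y))) := by
        have := hZm.comp hxm
        fun_prop
      exact this.aestronglyMeasurable
  · intro j y s
    congr 1
    funext k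
    by_cases hk : k = e j
    · subst hk
      rw [Function.update_self, Function.update_self]
    · rw [Function.update_of_ne hk, Function.update_of_ne hk]
      by_cases hkS : k ∈ S
      · simp only [xt, hkS, dite_true]
        rw [Function.update_of_ne]
        intro hh
        apply hk
        rw [he]
        simp only
        rw [← hh, Equiv.symm_apply_apply]
      · simp only [xt, hkS, dite_false]
  · intro y
    refine le_trans (le_of_eq ?_) (hK _ (hexB y))
    rw [← Finset.sum_coe_sort S]
    exact Fintype.sum_equiv S.equivFin.symm _ _ fun j => rfl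

end

end Pool.Agent.Helper94.PG
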