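import Mathlib

/-!
# PG-B4: consequences of `E exp (-t Y) ≤ exp (-t m + t ^ 2 K / 2)` for all `t ≥ 0`

Lower tail `P (Y ≤ m - s) ≤ exp (-s ^ 2 / (2 K))`; if `P (Y ≤ z) ≥ p` then
`m ≤ z + √(2 K log (1 / p))`; if `m = E Y` then `E |Y - m| ≤ 4 √K`.
-/

set_option autoImplicit false

namespace Pool.Agent.Helper94.PG

open MeasureTheory Real Filter

section

variable {Ω : Type*} [MeasurableSpace Ω] {P : Measure Ω} [IsProbabilityMeasure P]

theorem int_exp {Y : Ω → ℝ} (hY : Measurable Y) {M : ℝ} (hb : ∀ ω, |Y ω| ≤ M) (t : ℝ) :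
    Integrable (fun ω => exp (-(t * Y ω))) P := by
  refine Integrable.of_bound (by fun_prop) (exp (|t| * M)) (Eventually.of_forall fun x => ?_)
  rw [Real.norm_eq_abs, abs_exp]
  refine exp_le_exp.2 ((neg_le_abs _).trans ?_)
  rw [abs_mul]
  exact mul_le_mul_of_nonneg_left (hb x) (abs_nonneg _)

/-- Chernoff's bound -/
theorem chernoff {Y : Ω → ℝ} (hY : Measurable Y) {M : ℝ} (hb : ∀ ω, |Y ω| ≤ M) {t : ℝ}
    (ht : 0 ≤ t) (z : ℝ) :
    P.real {ω | Y ω ≤ z} ≤ exp (t * z) * ∫ ω, exp (-(t * Y ω)) ∂P := by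
  have hi := int_exp (P := P) hY hb t
  have h1 := mul_meas_ge_le_integral_of_nonneg (μ := P) (f := fun ω => exp (-(t * Y ω)))
    (Eventually.of_forall fun ω => (exp_pos _).le) hi (exp (-(t * z)))
  have h2 : P.real {ω | Y ω ≤ z} ≤ P.real {ω | exp (-(t * z)) ≤ exp (-(t * Y ω))} := by
    refine measureReal_mono ?_
    intro ω hω
    have hω' : Y ω ≤ z := hω
    have : t * Y ω ≤ t * z := mul_le_mul_of_nonneg_left hω' ht
    exact exp_le_exp.2 (neg_le_neg this)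
  have h3 : exp (t * z) * exp (-(t * z)) = 1 := by rw [← exp_add]; simp
  calc P.real {ω | Y ω ≤ z} ≤ P.real {ω | exp (-(t * z)) ≤ exp (-(t * Y ω))} := h2
    _ = exp (t * z) * (exp (-(t * z)) * P.real {ω | exp (-(t * z)) ≤ exp (-(t * Y ω))}) := by
        rw [← mul_assoc, h3, one_mul]
    _ ≤ _ := mul_le_mul_of_nonneg_left h1 (exp_pos _).le

theorem low_tail {Y : Ω → ℝ} (hY : Measurable Y) {M : ℝ} (hb : ∀ ω, |Y ω| ≤ M) {m K : ℝ}
    (hK : 0 < K) (H : ∀ t : ℝ, 0 ≤ t → ∫ ω, exp (-(t * Y ω)) ∂P ≤ exp (-(t * m) + t ^ 2 * K / 2))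
    {s : ℝ} (hs : 0 ≤ s) : P.real {ω | Y ω ≤ m - s} ≤ exp (-(s ^ 2 / (2 * K))) := by
  have ht : 0 ≤ s / K := by positivity
  refine (chernoff hY hb ht (m - s)).trans ?_
  refine (mul_le_mul_of_nonneg_left (H _ ht) (exp_pos _).le).trans ?_
  rw [← exp_add]
  refine exp_le_exp.2 (le_of_eq ?_)
  field_simp
  ring

/-- if `Y ≤ z` has probability at least `p` then `m` is not much larger than `z` -/
theorem mean_le {Y : Ω → ℝ} (hY : Measurable Y) {M : ℝ} (hb : ∀ ω, |Y ω| ≤ M) {m K : ℝ}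
    (hK : 0 < K) (H : ∀ t : ℝ, 0 ≤ t → ∫ ω, exp (-(t * Y ω)) ∂P ≤ exp (-(t * m) + t ^ 2 * K / 2))
    {z p : ℝ} (hp : 0 < p) (hz : p ≤ P.real {ω | Y ω ≤ z}) :
    m ≤ z + √(2 * K * log (1 / p)) := by
  by_contra hcon
  push Not at hcon
  have h0 := sqrt_nonneg (2 * K * log (1 / p))
  have hs : 0 ≤ m - z := by linarith
  have h1 := low_tail hY hb hK H hs
  rw [sub_sub_cancel] at h1
  have h2 := hz.trans h1
  have h3 : log p ≤ -((m - z) ^ 2 / (2 * K)) := by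
    rw [← log_exp (-((m - z) ^ 2 / (2 * K)))]
    exact log_le_log hp h2
  have h4 : (m - z) ^ 2 ≤ 2 * K * log (1 / p) := by
    rw [one_div, log_inv]
    have : (m - z) ^ 2 / (2 * K) ≤ -log p := by linarith
    rw [div_le_iff₀ (by positivity)] at this
    linarith
  have h5 : m - z ≤ √(2 * K * log (1 / p)) := by
    rw [← sqrt_sq hs]
    exact sqrt_le_sqrt h4
  linarith

/-- the first absolute moment -/
theorem abs_dev {Y : Ω → ℝ} (hY : Measurable Y) {M : ℝ} (hb : ∀ ω, |Y ω| ≤ M) {K : ℝ}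
    (hK : 0 < K) (H : ∀ t : ℝ, 0 ≤ t → ∫ ω, exp (-(t * Y ω)) ∂P ≤
      exp (-(t * ∫ ω, Y ω ∂P) + t ^ 2 * K / 2)) :
    ∫ ω, |Y ω - ∫ ω', Y ω' ∂P| ∂P ≤ 4 * √K := by
  set m := ∫ ω, Y ω ∂P with hm
  have hr : 0 < √K := sqrt_pos.2 hK
  have hYi : Integrable Y P := Integrable.of_bound hY.aestronglyMeasurable M
    (Eventually.of_forall hb)
  have hi := int_exp (P := P) hY hb (1 / √K)
  have h1 := H (1 / √K) (by positivity)
  -- `|y| ≤ y + 2 √K exp (-y / √K)`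
  have hpt : ∀ ω, |Y ω - m| ≤ (Y ω - m) +
      2 * √K * (exp (1 / √K * m) * exp (-(1 / √K * Y ω))) := by
    intro ω
    rw [← exp_add]
    have e : 1 / √K * m + -(1 / √K * Y ω) = -((Y ω - m) / √K) := by ring
    rw [e]
    have hx := add_one_le_exp (-((Y ω - m) / √K))
    have hx0 := exp_pos (-((Y ω - m) / √K))
    rcases abs_cases (Y ω - m) with ⟨h, h'⟩ | ⟨h, h'⟩
    · rw [h]
      have : 0 ≤ 2 * √K * exp (-((Y ω - m) / √K)) := by positivity
      linarith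
    · rw [h]
      have h5 : √K * (-((Y ω - m) / √K) + 1) ≤ √K * exp (-((Y ω - m) / √K)) :=
        mul_le_mul_of_nonneg_left hx hr.le
      have h6 : √K * (-((Y ω - m) / √K) + 1) = -(Y ω - m) + √K := by
        field_simp
      linarith
  have hmi : Integrable (fun ω => Y ω - m) P := hYi.sub (integrable_const m)
  have h2 : ∫ ω, |Y ω - m| ∂P ≤ ∫ ω, ((Y ω - m) +
      2 * √K * (exp (1 / √K * m) * exp (-(1 / √K * Y ω)))) ∂P :=
    integral_mono hmi.abs (hmi.add ((hi.const_mul _).const_mul _)) hpt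
  rw [integral_add hmi ((hi.const_mul _).const_mul _), integral_const_mul, integral_const_mul,
    integral_sub hYi (integrable_const m)] at h2
  have h3 : ∫ _ω : Ω, m ∂P = m := by simp
  rw [h3, ← hm, sub_self, zero_add] at h2
  refine h2.trans ?_
  have h4 : exp (1 / √K * m) * ∫ ω, exp (-(1 / √K * Y ω)) ∂P ≤ exp (1 / 2) := by
    refine (mul_le_mul_of_nonneg_left h1 (exp_pos _).le).trans ?_
    rw [← exp_add]
    refine exp_le_exp.2 (le_of_eq ?_)
    have : √K ^ 2 = K := sq_sqrt hK.le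
    field_simp
    rw [this]
    ring
  have h5 : exp (1 / 2) ≤ 2 := by
    have h6 : exp (1 / 2) ^ 2 ≤ 2 ^ 2 := by
      rw [← exp_nat_mul]
      have := exp_one_lt_d9
      norm_num at this ⊢
      linarith
    exact le_of_sq_le_sq h6 (by norm_num)
  calc 2 * √K * (exp (1 / √K * m) * ∫ ω, exp (-(1 / √K * Y ω)) ∂P)
      ≤ 2 * √K * 2 := mul_le_mul_of_nonneg_left (h4.trans h5) (by positivity)
    _ = 4 * √K := by ring

end

end Pool.Agent.Helper94.PG
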