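import Pool.Agent.Helper94.PG.Tens

/-!
# PG-B2: Herbst's argument

If `Ent (exp (t Y)) ≤ (t ^ 2 K / 2) E exp (t Y)` for all `t > 0` then
`E exp (t Y) ≤ exp (t E Y + t ^ 2 K / 2)`: the function `log (E exp (t Y)) / t - E Y - t K / 2` has a
nonpositive derivative and tends to `0` at `0`.
-/

set_option autoImplicit false

namespace Pool.Agent.Helper94.PG

open MeasureTheory Real ProbabilityTheory Filter Topology

section

variable {A : Type*} [MeasurableSpace A] {μ : Measure A} [IsProbabilityMeasure μ]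

theorem herbst_abs {Y : A → ℝ} (hY : Measurable Y) {M K : ℝ} (hb : ∀ x, |Y x| ≤ M)
    (hent : ∀ t : ℝ, 0 < t → (∫ x, exp (t * Y x) * (t * Y x) ∂μ) -
      (∫ x, exp (t * Y x) ∂μ) * log (∫ x, exp (t * Y x) ∂μ) ≤
        t ^ 2 * K / 2 * ∫ x, exp (t * Y x) ∂μ) {t : ℝ} (ht : 0 ≤ t) :
    ∫ x, exp (t * Y x) ∂μ ≤ exp (t * (∫ x, Y x ∂μ) + t ^ 2 * K / 2) := by
  have hint : ∀ s : ℝ, Integrable (fun x => exp (s * Y x)) μ := by
    intro s
    refine Integrable.of_bound (by fun_prop) (exp (|s| * M)) (Eventually.of_forall fun x => ?_)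
    rw [Real.norm_eq_abs, abs_exp]
    refine exp_le_exp.2 ((le_abs_self _).trans ?_)
    rw [abs_mul]
    exact mul_le_mul_of_nonneg_left (hb x) (abs_nonneg _)
  have huniv : integrableExpSet Y μ = Set.univ := by
    ext s
    simp only [integrableExpSet, Set.mem_ofPred_eq, Set.mem_univ, iff_true]
    exact hint s
  have hin : ∀ s, s ∈ interior (integrableExpSet Y μ) := by
    intro s
    rw [huniv]
    simp
  have hMpos : ∀ s, 0 < mgf Y μ s := fun s => mgf_pos (hint s)
  have hder : ∀ s, HasDerivAt (mgf Y μ) (∫ x, Y x * exp (s * Y x) ∂μ) s := fun s =>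
    hasDerivAt_mgf (hin s)
  have hcg : ∀ s, HasDerivAt (fun u => log (mgf Y μ u))
      ((∫ x, Y x * exp (s * Y x) ∂μ) / mgf Y μ s) s := fun s => (hder s).log (hMpos s).ne'
  set m := ∫ x, Y x ∂μ with hm
  set ψ : ℝ → ℝ := fun s => log (mgf Y μ s) / s - m - s * K / 2 with hψ
  have hψd : ∀ s, 0 < s → HasDerivAt ψ
      (((∫ x, Y x * exp (s * Y x) ∂μ) / mgf Y μ s * s - log (mgf Y μ s) * 1) / s ^ 2 - 0
        - 1 * K / 2) s := by
    intro s hs
    have h1 := ((hcg s).div (hasDerivAt_id s) hs.ne').sub (hasDerivAt_const s m)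
    have h2 := ((hasDerivAt_id s).mul_const K).div_const 2
    exact h1.sub h2
  have hanti : AntitoneOn ψ (Set.Ioi 0) := by
    refine antitoneOn_of_deriv_nonpos (convex_Ioi 0)
      (fun s hs => (hψd s hs).continuousAt.continuousWithinAt)
      (fun s hs => ?_) (fun s hs => ?_)
    · rw [interior_Ioi] at hs
      exact (hψd s hs).differentiableAt.differentiableWithinAt
    · rw [interior_Ioi] at hs
      have hs' : 0 < s := hs
      rw [(hψd s hs).deriv]
      have h1 := hent s hs'
      have h2 : ∫ x, exp (s * Y x) * (s * Y x) ∂μ = s * ∫ x, Y x * exp (s * Y x) ∂μ := by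
        rw [← integral_const_mul]
        congr 1
        funext x
        ring
      rw [h2] at h1
      have h3 : ∫ x, exp (s * Y x) ∂μ = mgf Y μ s := rfl
      rw [h3] at h1
      have h4 := hMpos s
      have h5 : (∫ x, Y x * exp (s * Y x) ∂μ) / mgf Y μ s * s - log (mgf Y μ s) ≤
          s ^ 2 * K / 2 := by
        rw [div_mul_eq_mul_div, sub_le_iff_le_add, div_le_iff₀ h4]
        linarith
      have h6 : ((∫ x, Y x * exp (s * Y x) ∂μ) / mgf Y μ s * s - log (mgf Y μ s)) / s ^ 2 ≤
          K / 2 := by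
        rw [div_le_iff₀ (by positivity)]
        linarith
      rw [mul_one]
      linarith
  have hlim : Tendsto (fun s => log (mgf Y μ s) / s) (𝓝[>] 0) (𝓝 m) := by
    have h1 := hcg 0
    rw [hasDerivAt_iff_tendsto_slope_zero] at h1
    have h2 : (∫ x, Y x * exp (0 * Y x) ∂μ) / mgf Y μ 0 = m := by
      simp [hm]
    rw [h2] at h1
    have h3 : Tendsto (fun s : ℝ => s⁻¹ • (log (mgf Y μ (0 + s)) - log (mgf Y μ 0))) (𝓝[>] 0)
        (𝓝 m) := h1.mono_left (nhdsWithin_mono _ fun x hx => ne_of_gt hx)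
    refine h3.congr fun s => ?_
    simp only [zero_add, mgf_zero, log_one, sub_zero, smul_eq_mul]
    rw [inv_mul_eq_div]
  have hlim2 : Tendsto ψ (𝓝[>] 0) (𝓝 0) := by
    have h1 : Tendsto (fun s : ℝ => s * K / 2) (𝓝[>] 0) (𝓝 0) := by
      have : Tendsto (fun s : ℝ => s * K / 2) (𝓝 0) (𝓝 (0 * K / 2)) := by
        exact (tendsto_id.mul_const K).div_const 2
      simpa using this.mono_left nhdsWithin_le_nhds
    have h2 := (hlim.sub_const m).sub h1
    simpa [hψ] using h2
  rcases ht.eq_or_lt with rfl | ht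
  · simp
  have hle : ψ t ≤ 0 := by
    refine ge_of_tendsto hlim2 ?_
    filter_upwards [Ioo_mem_nhdsGT ht] with s hs
    exact hanti (Set.mem_Ioi.2 hs.1) (Set.mem_Ioi.2 ht) hs.2.le
  have h3 : log (mgf Y μ t) ≤ t * m + t ^ 2 * K / 2 := by
    simp only [hψ] at hle
    have h4 : log (mgf Y μ t) / t ≤ m + t * K / 2 := by linarith
    rw [div_le_iff₀ ht] at h4
    linarith
  have h5 : mgf Y μ t ≤ exp (t * m + t ^ 2 * K / 2) := by
    rw [← exp_log (hMpos t)]
    exact exp_le_exp.2 h3
  exact h5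

end

/-- `u exp (-u)`-form of the entropy bound: `exp f` against `exp g`, `g ≤ f` -/
theorem pt {f g : ℝ} (h : g ≤ f) :
    exp f * f - exp f * g - exp f + exp g ≤ exp f * (f - g) ^ 2 / 2 := by
  have hu : 0 ≤ f - g := sub_nonneg.2 h
  have h1 : exp (-(f - g)) ≤ 1 - (f - g) + (f - g) ^ 2 / 2 := by
    set u := f - g with hu'
    have a1 := quadratic_le_exp_of_nonneg hu
    have a2 : 0 < 1 - u + u ^ 2 / 2 := by nlinarith [sq_nonneg (u - 1)]
    have a3 : 1 ≤ (1 - u + u ^ 2 / 2) * exp u := by
      have a4 : (1 - u + u ^ 2 / 2) * (1 + u + u ^ 2 / 2) ≤ (1 - u + u ^ 2 / 2) * exp u :=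
        mul_le_mul_of_nonneg_left a1 a2.le
      nlinarith [sq_nonneg (u ^ 2)]
    rw [exp_neg, inv_le_iff_one_le_mul₀ (exp_pos u)]
    exact a3
  have h2 : exp g = exp f * exp (-(f - g)) := by
    rw [← exp_add]
    congr 1
    ring
  rw [h2]
  nlinarith [exp_pos f]

/-- Herbst's bound for a function of finitely many independent coordinates -/
theorem herbst_fin {E : Type*} [MeasurableSpace E] {n : ℕ} (ν : Fin n → Measure E)
    [∀ i, IsProbabilityMeasure (ν i)] {M K : ℝ} (Z : (Fin n → E) → ℝ)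
    (Zp : Fin n → (Fin n → E) → ℝ) (hZ : Measurable Z) (hZp : ∀ i, Measurable (Zp i))
    (hb : ∀ x, |Z x| ≤ M) (hbp : ∀ i x, |Zp i x| ≤ M)
    (hi : ∀ i x t, Zp i (Function.update x i t) = Zp i x) (hle : ∀ i x, Z x ≤ Zp i x)
    (hK : ∀ x, ∑ i, (Zp i x - Z x) ^ 2 ≤ K) {t : ℝ} (ht : 0 ≤ t) :
    ∫ x, exp (-(t * Z x)) ∂(Measure.pi ν) ≤
      exp (-(t * ∫ x, Z x ∂(Measure.pi ν)) + t ^ 2 * K / 2) := by
  have h := herbst_abs (μ := Measure.pi ν) (Y := fun x => - Z x) (M := M) (K := K) hZ.neg
    (fun x => by rw [abs_neg]; exact hb x) ?_ ht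
  · simp only [mul_neg, integral_neg] at h
    exact h
  · intro s hs
    simp only [mul_neg]
    have hE := ent_fin n ν (exp (-(s * M))) (exp (s * M)) (exp_pos _)
      (fun x => exp (-(s * Z x))) (fun i x => exp (-(s * Zp i x))) (by fun_prop)
      (fun i => by have := hZp i; fun_prop) (fun x => ?_) (fun i x => ?_) (fun i x t => ?_)
    · simp only [log_exp, mul_neg] at hE
      refine hE.trans ?_
      have bI : ∀ F : (Fin n → E) → ℝ, Measurable F → ∀ C : ℝ, (∀ x, |F x| ≤ C) →
          Integrable F (Measure.pi ν) := fun F hF C hC =>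
        Integrable.of_bound hF.aestronglyMeasurable C (Eventually.of_forall hC)
      have eb : ∀ z : ℝ, |z| ≤ M → |exp (-(s * z))| ≤ exp (s * M) := by
        intro z hz
        rw [abs_exp]
        refine exp_le_exp.2 ?_
        have := (abs_le.1 hz).1
        nlinarith
      have i1 : Integrable (fun x => exp (-(s * Z x))) (Measure.pi ν) :=
        bI _ (by fun_prop) _ fun x => eb _ (hb x)
      have i2 : ∀ i, Integrable (fun x => exp (-(s * Zp i x))) (Measure.pi ν) := fun i =>
        bI _ (by have := hZp i; fun_prop) _ fun x => eb _ (hbp i x)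
      have i3 : ∀ z : (Fin n → E) → ℝ, Measurable z → (∀ x, |z x| ≤ M) →
          Integrable (fun x => exp (-(s * Z x)) * (s * z x)) (Measure.pi ν) := by
        intro z hz hzb
        refine bI _ (by fun_prop) (exp (s * M) * (s * M)) fun x => ?_
        rw [abs_mul]
        refine mul_le_mul (eb _ (hb x)) ?_ (abs_nonneg _) (exp_pos _).le
        rw [abs_mul, abs_of_pos hs]
        exact mul_le_mul_of_nonneg_left (hzb x) hs.le
      have i4 : ∀ i, Integrable (fun x => exp (-(s * Z x)) * (Zp i x - Z x) ^ 2)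
          (Measure.pi ν) := by
        intro i
        refine bI _ (by have := hZp i; fun_prop) (exp (s * M) * K) fun x => ?_
        rw [abs_mul]
        refine mul_le_mul (eb _ (hb x)) ?_ (abs_nonneg _) (exp_pos _).le
        rw [abs_of_nonneg (sq_nonneg _)]
        exact (Finset.single_le_sum (f := fun i => (Zp i x - Z x) ^ 2)
          (fun i _ => sq_nonneg _) (Finset.mem_univ i)).trans (hK x)
      calc ∑ i, ∫ x, (-(exp (-(s * Z x)) * (s * Z x)) - -(exp (-(s * Z x)) * (s * Zp i x)) -
            exp (-(s * Z x)) + exp (-(s * Zp i x))) ∂(Measure.pi ν)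
          ≤ ∑ i, ∫ x, s ^ 2 / 2 * (exp (-(s * Z x)) * (Zp i x - Z x) ^ 2) ∂(Measure.pi ν) := by
            refine Finset.sum_le_sum fun i _ => ?_
            refine integral_mono ((((i3 Z hZ hb).neg.sub (i3 _ (hZp i) (hbp i)).neg).sub i1).add
              (i2 i)) ((i4 i).const_mul _) fun x => ?_
            have := pt (f := -(s * Z x)) (g := -(s * Zp i x)) (by
              have := mul_le_mul_of_nonneg_left (hle i x) hs.le
              linarith)
            simp only [mul_neg] at this
            refine this.trans (le_of_eq ?_)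
            ring
        _ = s ^ 2 / 2 * ∫ x, exp (-(s * Z x)) * ∑ i, (Zp i x - Z x) ^ 2 ∂(Measure.pi ν) := by
            simp only [Finset.mul_sum]
            rw [integral_finsetSum _ fun i _ => i4 i]
            simp only [integral_const_mul, Finset.mul_sum]
        _ ≤ s ^ 2 / 2 * ∫ x, K * exp (-(s * Z x)) ∂(Measure.pi ν) := by
            refine mul_le_mul_of_nonneg_left ?_ (by positivity)
            refine integral_mono ?_ (i1.const_mul K) fun x => ?_
            · simp only [Finset.mul_sum]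
              exact integrable_finsetSum _ fun i _ => i4 i
            · simp only
              rw [mul_comm K]
              exact mul_le_mul_of_nonneg_left (hK x) (exp_pos _).le
        _ = s ^ 2 * K / 2 * ∫ x, exp (-(s * Z x)) ∂(Measure.pi ν) := by
            rw [integral_const_mul]
            ring
    · have := abs_le.1 (hb x)
      constructor <;> refine exp_le_exp.2 ?_ <;> nlinarith
    · have := abs_le.1 (hbp i x)
      constructor <;> refine exp_le_exp.2 ?_ <;> nlinarith
    · simp only [hi]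

end Pool.Agent.Helper94.PG
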