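import Mathlib

/-!
# PG-B1: subadditivity of the entropy over a product

For independent coordinates and functions `g i` which do not depend on the coordinate `i`:
`∫ f log f - (∫ f) log (∫ f) ≤ ∑ i, ∫ (f log f - f log (g i) - f + g i)`.

Pointwise: `F log (A / B) ≤ F log F - F log G - F + G * (A / B)` (`log u ≤ u - 1` with
`u = A G / (B F)`).  Induction on the number of coordinates.
-/

set_option autoImplicit false

namespace Pool.Agent.Helper94.PG

open MeasureTheory Real

/-- the pointwise inequality -/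
theorem key {F G A B : ℝ} (hF : 0 < F) (hG : 0 < G) (hA : 0 < A) (hB : 0 < B) :
    F * log A - F * log B ≤ F * log F - F * log G - F + G * (A / B) := by
  have hu : 0 < A * G / (B * F) := by positivity
  have h := log_le_sub_one_of_pos hu
  rw [log_div (by positivity) (by positivity), log_mul hA.ne' hG.ne', log_mul hB.ne' hF.ne'] at h
  have h2 := mul_le_mul_of_nonneg_left h hF.le
  have h3 : F * (A * G / (B * F) - 1) = G * (A / B) - F := by
    field_simp
  rw [h3] at h2
  nlinarith

theorem abs_log_le {c C x : ℝ} (hc : 0 < c) (h1 : c ≤ x) (h2 : x ≤ C) :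
    |log x| ≤ |log c| + |log C| := by
  have a1 := log_le_log hc h1
  have a2 := log_le_log (hc.trans_le h1) h2
  have a3 := neg_abs_le (log c)
  have a4 := le_abs_self (log C)
  have a5 := abs_nonneg (log c)
  have a6 := abs_nonneg (log C)
  rw [abs_le]
  constructor <;> linarith

section one

variable {A : Type*} [MeasurableSpace A] {μ : Measure A} [IsProbabilityMeasure μ]

/-- a bounded measurable function is integrable -/
theorem int_bd {f : A → ℝ} (hf : Measurable f) {c C : ℝ} (h : ∀ x, c ≤ f x ∧ f x ≤ C) :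
    Integrable f μ := by
  refine Integrable.of_bound hf.aestronglyMeasurable (|c| + |C|) (Filter.Eventually.of_forall ?_)
  intro x
  have h1 := (h x).1
  have h2 := (h x).2
  have a3 := neg_abs_le c
  have a4 := le_abs_self C
  have a5 := abs_nonneg c
  have a6 := abs_nonneg C
  rw [Real.norm_eq_abs, abs_le]
  constructor <;> linarith

theorem int_mul_log {f g : A → ℝ} (hf : Measurable f) (hg : Measurable g) {c C : ℝ} (hc : 0 < c)
    (h : ∀ x, c ≤ f x ∧ f x ≤ C) (h' : ∀ x, c ≤ g x ∧ g x ≤ C) :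
    Integrable (fun x => f x * log (g x)) μ := by
  refine Integrable.of_bound (hf.mul hg.log).aestronglyMeasurable (C * (|log c| + |log C|))
    (Filter.Eventually.of_forall ?_)
  intro x
  rw [Real.norm_eq_abs, abs_mul]
  have h1 := abs_log_le hc (h' x).1 (h' x).2
  have h2 : |f x| ≤ C := by
    rw [abs_of_nonneg (hc.le.trans (h x).1)]
    exact (h x).2
  exact mul_le_mul h2 h1 (abs_nonneg _) ((abs_nonneg _).trans h2)

theorem integral_bd {f : A → ℝ} (hf : Measurable f) {c C : ℝ} (h : ∀ x, c ≤ f x ∧ f x ≤ C) :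
    c ≤ ∫ x, f x ∂μ ∧ ∫ x, f x ∂μ ≤ C := by
  constructor
  · have h1 := integral_mono (μ := μ) (integrable_const c) (int_bd (μ := μ) hf h)
      (fun x => (h x).1)
    simpa using h1
  · have h1 := integral_mono (μ := μ) (int_bd (μ := μ) hf h) (integrable_const C)
      (fun x => (h x).2)
    simpa using h1

theorem bd4 {a b c C : ℝ} (hc : 0 < c) (h : c ≤ a ∧ a ≤ C) (h' : c ≤ b ∧ b ≤ C) :
    -(2 * (C * (|log c| + |log C|)) + 2 * C) ≤ a * log a - a * log b - a + b ∧
      a * log a - a * log b - a + b ≤ 2 * (C * (|log c| + |log C|)) + 2 * C := by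
  have h1 := abs_log_le hc h.1 h.2
  have h2 := abs_log_le hc h'.1 h'.2
  have h3 : |a| ≤ C := by
    rw [abs_of_nonneg (hc.le.trans h.1)]
    exact h.2
  have h4 : |a * log a| ≤ C * (|log c| + |log C|) := by
    rw [abs_mul]
    exact mul_le_mul h3 h1 (abs_nonneg _) ((abs_nonneg _).trans h3)
  have h5 : |a * log b| ≤ C * (|log c| + |log C|) := by
    rw [abs_mul]
    exact mul_le_mul h3 h2 (abs_nonneg _) ((abs_nonneg _).trans h3)
  rw [abs_le] at h4 h5
  constructor <;> linarith [h4.1, h4.2, h5.1, h5.2, h.1, h.2, h'.1, h'.2]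

omit [IsProbabilityMeasure μ] in
theorem split4 {u v w z : A → ℝ} (hu : Integrable u μ) (hv : Integrable v μ)
    (hw : Integrable w μ) (hz : Integrable z μ) :
    ∫ x, (u x - v x - w x + z x) ∂μ =
      (∫ x, u x ∂μ) - (∫ x, v x ∂μ) - (∫ x, w x ∂μ) + ∫ x, z x ∂μ := by
  have h1 := integral_add ((hu.sub hv).sub hw) hz
  have h2 := integral_sub (hu.sub hv) hw
  have h3 := integral_sub hu hv
  simp only [Pi.sub_apply] at h1 h2 h3
  rw [h1, h2, h3]

/-- joint convexity of `F log (F / G)` -/
theorem conv {f g : A → ℝ} (hf : Measurable f) (hg : Measurable g) {c C : ℝ} (hc : 0 < c)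
    (h : ∀ x, c ≤ f x ∧ f x ≤ C) (h' : ∀ x, c ≤ g x ∧ g x ≤ C) :
    (∫ x, f x ∂μ) * log (∫ x, f x ∂μ) - (∫ x, f x ∂μ) * log (∫ x, g x ∂μ) ≤
      (∫ x, f x * log (f x) ∂μ) - ∫ x, f x * log (g x) ∂μ := by
  obtain ⟨a1, a2⟩ := integral_bd (μ := μ) hf h
  obtain ⟨b1, b2⟩ := integral_bd (μ := μ) hg h'
  set I := ∫ x, f x ∂μ with hI
  set J := ∫ x, g x ∂μ with hJ
  have hIp : 0 < I := hc.trans_le a1
  have hJp : 0 < J := hc.trans_le b1
  have i1 := int_bd (μ := μ) hf h
  have i2 := int_bd (μ := μ) hg h'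
  have i3 := int_mul_log (μ := μ) hf hf hc h h
  have i4 := int_mul_log (μ := μ) hf hg hc h h'
  have hm := integral_mono (μ := μ) (f := fun x => f x * log I - f x * log J)
    (g := fun x => f x * log (f x) - f x * log (g x) - f x + g x * (I / J))
    ((i1.mul_const _).sub (i1.mul_const _))
    (((i3.sub i4).sub i1).add (i2.mul_const _))
    (fun x => key (hc.trans_le (h x).1) (hc.trans_le (h' x).1) hIp hJp)
  rw [integral_sub (i1.mul_const _) (i1.mul_const _), integral_mul_const, integral_mul_const,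
    split4 i3 i4 i1 (i2.mul_const _), integral_mul_const, ← hI, ← hJ] at hm
  have e : J * (I / J) = I := by field_simp
  rw [e] at hm
  linarith

end one

section pi

variable {E : Type*} [MeasurableSpace E]

theorem pi_succ {n : ℕ} (ν : Fin (n + 1) → Measure E) [∀ i, IsProbabilityMeasure (ν i)]
    {F : (Fin (n + 1) → E) → ℝ} (hF : Integrable F (Measure.pi ν)) :
    ∫ x, F x ∂(Measure.pi ν) =
      ∫ y, ∫ t, F (Fin.cons t y) ∂(ν 0) ∂(Measure.pi fun j : Fin n => ν j.succ) := by
  have hmp := (measurePreserving_piFinSuccAbove ν 0).symm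
  have h1 := hmp.integral_comp' F
  rw [← h1]
  have h2 : Integrable (fun z => F ((MeasurableEquiv.piFinSuccAbove (fun _ => E) 0).symm z))
      ((ν 0).prod (Measure.pi fun j : Fin n => ν j.succ)) := by
    have := hmp.integrable_comp_emb (MeasurableEquiv.measurableEmbedding _) (g := F)
    exact this.2 hF
  have h3 := integral_prod_symm _ h2
  refine h3.trans ?_
  refine integral_congr_ae (Filter.Eventually.of_forall fun y => ?_)
  refine integral_congr_ae (Filter.Eventually.of_forall fun t => ?_)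
  simp only [MeasurableEquiv.piFinSuccAbove_symm_apply, Fin.insertNthEquiv,
    Equiv.coe_fn_mk, Fin.insertNth_zero']

theorem measurable_cons (n : ℕ) :
    Measurable fun z : E × (Fin n → E) => (Fin.cons z.1 z.2 : Fin (n + 1) → E) := by
  refine measurable_pi_lambda _ fun i => ?_
  refine Fin.cases ?_ (fun j => ?_) i
  · simpa using measurable_fst
  · simp only [Fin.cons_succ]
    exact (measurable_pi_apply j).comp measurable_snd

theorem ent_fin (n : ℕ) : ∀ (ν : Fin n → Measure E) [∀ i, IsProbabilityMeasure (ν i)]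
    (c C : ℝ), 0 < c → ∀ (f : (Fin n → E) → ℝ) (g : Fin n → (Fin n → E) → ℝ), Measurable f →
    (∀ i, Measurable (g i)) → (∀ x, c ≤ f x ∧ f x ≤ C) → (∀ i x, c ≤ g i x ∧ g i x ≤ C) →
    (∀ i x t, g i (Function.update x i t) = g i x) →
    (∫ x, f x * log (f x) ∂(Measure.pi ν)) -
      (∫ x, f x ∂(Measure.pi ν)) * log (∫ x, f x ∂(Measure.pi ν)) ≤
      ∑ i, ∫ x, (f x * log (f x) - f x * log (g i x) - f x + g i x) ∂(Measure.pi ν) := by
  induction n with
  | zero =>
    intro ν _ c C hc f g hf hg hfb hgb hgi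
    have h0 : ∀ F : (Fin 0 → E) → ℝ, ∫ x, F x ∂(Measure.pi ν) = F default := by
      intro F
      rw [Measure.pi_of_empty ν default, integral_dirac]
    rw [h0, h0]
    simp
  | succ n ih =>
    intro ν _ c C hc f g hf hg hfb hgb hgi
    have hmc := measurable_cons (E := E) n
    set ρ := Measure.pi fun j : Fin n => ν j.succ with hρ
    -- the averages over the first coordinate
    set f' : (Fin n → E) → ℝ := fun y => ∫ t, f (Fin.cons t y) ∂(ν 0) with hf'
    set g' : Fin n → (Fin n → E) → ℝ := fun i y => ∫ t, g i.succ (Fin.cons t y) ∂(ν 0) with hg'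
    have sec : ∀ (F : (Fin (n + 1) → E) → ℝ), Measurable F → ∀ y, Measurable fun t : E =>
        F (Fin.cons t y) := fun F hF y => (hF.comp hmc).comp (measurable_id.prodMk measurable_const)
    have mav : ∀ (F : (Fin (n + 1) → E) → ℝ), Measurable F → Measurable fun y =>
        ∫ t, F (Fin.cons t y) ∂(ν 0) := by
      intro F hF
      exact ((hF.comp hmc).stronglyMeasurable.integral_prod_left' (μ := ν 0)).measurable
    have hf'm : Measurable f' := mav f hf
    have hg'm : ∀ i, Measurable (g' i) := fun i => mav _ (hg i.succ)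
    have hf'b : ∀ y, c ≤ f' y ∧ f' y ≤ C := fun y => integral_bd (sec f hf y) fun t => hfb _
    have hg'b : ∀ i y, c ≤ g' i y ∧ g' i y ≤ C := fun i y =>
      integral_bd (sec _ (hg i.succ) y) fun t => hgb _ _
    have hg'i : ∀ i y t, g' i (Function.update y i t) = g' i y := by
      intro i y t
      simp only [hg']
      congr 1
      funext s
      rw [Fin.cons_update]
      exact hgi _ _ _
    have hI := ih (fun j : Fin n => ν j.succ) c C hc f' g' hf'm hg'm hf'b hg'b hg'i
    -- integrals over the product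
    have P1 := pi_succ ν (int_bd (μ := Measure.pi ν) hf hfb)
    have P2 := pi_succ ν (int_mul_log (μ := Measure.pi ν) hf hf hc hfb hfb)
    set H : Fin (n + 1) → (Fin (n + 1) → E) → ℝ := fun i x =>
      f x * log (f x) - f x * log (g i x) - f x + g i x with hH
    have Hm : ∀ i, Measurable (H i) := fun i =>
      (((hf.mul hf.log).sub (hf.mul (hg i).log)).sub hf).add (hg i)
    set M := 2 * (C * (|log c| + |log C|)) + 2 * C with hM
    have Hb : ∀ i x, -M ≤ H i x ∧ H i x ≤ M := fun i x => bd4 hc (hfb x) (hgb i x)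
    have P3 : ∀ i, ∫ x, H i x ∂(Measure.pi ν) = ∫ y, ∫ t, H i (Fin.cons t y) ∂(ν 0) ∂ρ :=
      fun i => pi_succ ν (int_bd (μ := Measure.pi ν) (Hm i) (Hb i))
    have Hi : ∀ i, Integrable (fun y => ∫ t, H i (Fin.cons t y) ∂(ν 0)) ρ := fun i =>
      int_bd (mav _ (Hm i)) fun y => integral_bd (sec _ (Hm i) y) fun t => Hb _ _
    set L : (Fin (n + 1) → E) → ℝ := fun x => f x * log (f x) with hL
    have Lm : Measurable L := hf.mul hf.log
    have Lb : ∀ x, -(C * (|log c| + |log C|)) ≤ L x ∧ L x ≤ C * (|log c| + |log C|) := by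
      intro x
      have h3 : |f x| ≤ C := by
        rw [abs_of_nonneg (hc.le.trans (hfb x).1)]
        exact (hfb x).2
      have h4 : |f x * log (f x)| ≤ C * (|log c| + |log C|) := by
        rw [abs_mul]
        exact mul_le_mul h3 (abs_log_le hc (hfb x).1 (hfb x).2) (abs_nonneg _)
          ((abs_nonneg _).trans h3)
      exact abs_le.1 h4
    have Li : Integrable (fun y => ∫ t, L (Fin.cons t y) ∂(ν 0)) ρ :=
      int_bd (mav _ Lm) fun y => integral_bd (sec _ Lm y) fun t => Lb _
    have i1 := int_mul_log (μ := ρ) hf'm hf'm hc hf'b hf'b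
    -- the first coordinate
    have S0 : (∫ y, ∫ t, L (Fin.cons t y) ∂(ν 0) ∂ρ) - ∫ y, f' y * log (f' y) ∂ρ ≤
        ∫ x, H 0 x ∂(Measure.pi ν) := by
      rw [P3 0, ← integral_sub Li i1]
      refine integral_mono (Li.sub i1) (Hi 0) fun y => ?_
      obtain ⟨t₀⟩ := nonempty_of_isProbabilityMeasure (ν 0)
      have hG : ∀ t, g 0 (Fin.cons t y) = g 0 (Fin.cons t₀ y) := by
        intro t
        have := hgi 0 (Fin.cons t₀ y) t
        rwa [Fin.update_cons_zero] at this
      have hsp := split4 (μ := ν 0) (int_mul_log (μ := ν 0) (sec f hf y) (sec f hf y) hc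
        (fun t => hfb _) (fun t => hfb _)) (int_mul_log (μ := ν 0) (sec f hf y)
        (sec _ (hg 0) y) hc (fun t => hfb _) (fun t => hgb _ _))
        (int_bd (μ := ν 0) (sec f hf y) (fun t => hfb _))
        (int_bd (μ := ν 0) (sec _ (hg 0) y) (fun t => hgb _ _))
      simp only [hH, hL]
      rw [hsp]
      simp only [hG]
      rw [integral_mul_const, integral_const]
      have hk := key (hc.trans_le (hf'b y).1) (hc.trans_le (hgb 0 (Fin.cons t₀ y)).1)
        one_pos one_pos
      simp only [probReal_univ, one_smul, log_one, mul_zero, div_one, mul_one,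
        sub_zero] at hk ⊢
      have e : ∫ t, f (Fin.cons t y) ∂(ν 0) = f' y := rfl
      rw [e]
      linarith
    -- the other coordinates
    have S1 : ∀ i : Fin n, ∫ y, (f' y * log (f' y) - f' y * log (g' i y) - f' y + g' i y) ∂ρ ≤
        ∫ x, H i.succ x ∂(Measure.pi ν) := by
      intro i
      rw [P3 i.succ]
      have i2 := int_mul_log (μ := ρ) hf'm (hg'm i) hc hf'b (hg'b i)
      refine integral_mono (((i1.sub i2).sub (int_bd (μ := ρ) hf'm hf'b)).add
        (int_bd (μ := ρ) (hg'm i) (hg'b i))) (Hi i.succ) fun y => ?_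
      have hcv := conv (μ := ν 0) (sec f hf y) (sec _ (hg i.succ) y) hc (fun t => hfb _)
        (fun t => hgb _ _)
      have hsp := split4 (μ := ν 0) (int_mul_log (μ := ν 0) (sec f hf y) (sec f hf y) hc
        (fun t => hfb _) (fun t => hfb _)) (int_mul_log (μ := ν 0) (sec f hf y)
        (sec _ (hg i.succ) y) hc (fun t => hfb _) (fun t => hgb _ _))
        (int_bd (μ := ν 0) (sec f hf y) (fun t => hfb _))
        (int_bd (μ := ν 0) (sec _ (hg i.succ) y) (fun t => hgb _ _))
      simp only [hH]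
      rw [hsp]
      simp only [hf', hg']
      linarith
    have hS : ∑ i : Fin n, ∫ y, (f' y * log (f' y) - f' y * log (g' i y) - f' y + g' i y) ∂ρ ≤
        ∑ i : Fin n, ∫ x, H i.succ x ∂(Measure.pi ν) := Finset.sum_le_sum fun i _ => S1 i
    rw [Fin.sum_univ_succ]
    have P1' : ∫ x, f x ∂(Measure.pi ν) = ∫ y, f' y ∂ρ := P1
    have P2' : ∫ x, f x * log (f x) ∂(Measure.pi ν) = ∫ y, ∫ t, L (Fin.cons t y) ∂(ν 0) ∂ρ := P2
    rw [P1', P2']
    linarith

end pi

end Pool.Agent.Helper94.PG
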